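import Pool.Agent.Helper10.QRH.StC

/-! Project QRH (MP_768c9c_nt), Part C0a: cells and parts. -/

set_option autoImplicit false
open Pool.Agent.Helper10.QRH

namespace Pool.Agent.Helper51.QRH

variable (P : Par)

theorem nu_pos : 0 < P.ν := by
  have h := lt_min P.κ0 (lt_min P.η0 P.φ0)
  unfold Par.ν; positivity

theorem d_pos : 0 < P.d := by
  have := nu_pos P
  unfold Par.d; positivity

theorem e_le (k : ℕ) : P.e k ≤ k := by
  have hd := d_pos P
  apply Nat.floor_le_of_le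
  have hk : (0 : ℝ) ≤ k := Nat.cast_nonneg k
  nlinarith

theorem pow_split (k : ℕ) : 2 ^ (k - P.e k) * 2 ^ P.e k = 2 ^ k := by
  rw [← pow_add, Nat.sub_add_cancel (e_le P k)]

/-- membership in a block interval `[a + j L, a + (j+1) L)` -/
theorem mem_blk {a j L n : ℕ} (hL : 0 < L) :
    n ∈ Finset.Ico (a + j * L) (a + (j + 1) * L) ↔ a ≤ n ∧ (n - a) / L = j := by
  rw [Finset.mem_Ico]
  constructor
  · rintro ⟨h1, h2⟩
    have ha : a ≤ n := le_trans (Nat.le_add_right _ _) h1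
    refine ⟨ha, ?_⟩
    have h3 : j * L ≤ n - a := by omega
    have h4 : n - a < (j + 1) * L := by omega
    exact Nat.div_eq_of_lt_le h3 h4
  · rintro ⟨ha, h⟩
    have h1 := Nat.div_mul_le_self (n - a) L
    have h2 := Nat.lt_div_mul_add hL (a := n - a)
    rw [h] at h1 h2
    rw [add_mul, one_mul]
    constructor <;> omega

theorem mem_cell {k j n : ℕ} (hj : j < 2 ^ (k - P.e k)) :
    n ∈ P.cell k j ↔ n ≠ 0 ∧ Nat.log 2 n = k ∧ P.idx n = j := by
  have hL : 0 < 2 ^ P.e k := by positivity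
  have hk : 0 < 2 ^ k := by positivity
  unfold Par.cell
  rw [mem_blk hL]
  constructor
  · rintro ⟨h1, h2⟩
    have h3 : n < 2 ^ (k + 1) := by
      have h4 : (n - 2 ^ k) / 2 ^ P.e k < 2 ^ (k - P.e k) := by rw [h2]; exact hj
      rw [Nat.div_lt_iff_lt_mul hL, pow_split] at h4
      rw [pow_succ]; omega
    have h5 : Nat.log 2 n = k := Nat.log_eq_of_pow_le_of_lt_pow h1 h3
    refine ⟨by omega, h5, ?_⟩
    unfold Par.idx
    rw [h5]; exact h2
  · rintro ⟨h0, h1, h2⟩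
    unfold Par.idx at h2
    rw [h1] at h2
    refine ⟨?_, h2⟩
    have := Nat.pow_log_le_self 2 h0
    rwa [h1] at this

theorem idx_lt {n : ℕ} (h0 : n ≠ 0) :
    P.idx n < 2 ^ (Nat.log 2 n - P.e (Nat.log 2 n)) := by
  unfold Par.idx
  have hL : 0 < 2 ^ P.e (Nat.log 2 n) := by positivity
  rw [Nat.div_lt_iff_lt_mul hL, pow_split]
  have h1 := Nat.pow_log_le_self 2 h0
  have h2 : n < 2 ^ (Nat.log 2 n + 1) := Nat.lt_pow_succ_log_self (by norm_num) n
  rw [pow_succ] at h2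
  omega

theorem mem_block {k n : ℕ} :
    n ∈ Finset.Ico (2 ^ k) (2 ^ (k + 1)) ↔ n ≠ 0 ∧ Nat.log 2 n = k := by
  rw [Finset.mem_Ico]
  have hk : 0 < 2 ^ k := by positivity
  constructor
  · rintro ⟨h1, h2⟩
    exact ⟨by omega, Nat.log_eq_of_pow_le_of_lt_pow h1 h2⟩
  · rintro ⟨h0, h1⟩
    subst h1
    exact ⟨Nat.pow_log_le_self 2 h0, Nat.lt_pow_succ_log_self (by norm_num) n⟩

theorem sum_block (f : ℕ → ℝ) (k : ℕ) : ∑ n ∈ Finset.Ico (2 ^ k) (2 ^ (k + 1)), f n =
    ∑ j ∈ Finset.range (2 ^ (k - P.e k)), ∑ n ∈ P.cell k j, f n := by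
  have h : ∀ j ∈ Finset.range (2 ^ (k - P.e k)), P.cell k j =
      (Finset.Ico (2 ^ k) (2 ^ (k + 1))).filter (fun n => P.idx n = j) := by
    intro j hj
    ext n
    rw [mem_cell P (Finset.mem_range.mp hj), Finset.mem_filter, mem_block, and_assoc]
  have h2 : ∑ j ∈ Finset.range (2 ^ (k - P.e k)), ∑ n ∈ P.cell k j, f n =
      ∑ j ∈ Finset.range (2 ^ (k - P.e k)),
        ∑ n ∈ (Finset.Ico (2 ^ k) (2 ^ (k + 1))).filter (fun n => P.idx n = j), f n :=
    Finset.sum_congr rfl (fun j hj => by rw [h j hj])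
  rw [h2, Finset.sum_fiberwise_of_maps_to]
  intro n hn
  rw [mem_block] at hn
  rw [Finset.mem_range]
  have := idx_lt P hn.1
  rwa [hn.2] at this

theorem card_blk (a j L : ℕ) : (Finset.Ico (a + j * L) (a + (j + 1) * L)).card = L := by
  rw [Nat.card_Ico, add_mul, one_mul]; omega

theorem card_cell (k j : ℕ) : (P.cell k j).card = 2 ^ P.e k := card_blk _ _ _

theorem card_part (k j i : ℕ) : (P.part k j i).card = 2 ^ (P.e k - P.e' k) := card_blk _ _ _

theorem part_subset {k j i : ℕ} (he : P.e' k ≤ P.e k) (hi : i < 2 ^ P.e' k) :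
    P.part k j i ⊆ P.cell k j := by
  have h1 : 2 ^ P.e' k * 2 ^ (P.e k - P.e' k) = 2 ^ P.e k := by
    rw [← pow_add, Nat.add_sub_cancel' he]
  intro n hn
  unfold Par.part at hn
  unfold Par.cell
  rw [Finset.mem_Ico] at hn ⊢
  obtain ⟨h2, h3⟩ := hn
  have h4 : (i + 1) * 2 ^ (P.e k - P.e' k) ≤ 2 ^ P.e k := by
    rw [← h1]; exact Nat.mul_le_mul_right _ hi
  refine ⟨le_trans (Nat.le_add_right _ _) h2, lt_of_lt_of_le h3 ?_⟩
  rw [add_mul j 1, one_mul]
  omega

theorem exists_part {k j n : ℕ} (he : P.e' k ≤ P.e k) (hn : n ∈ P.cell k j) :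
    ∃ i < 2 ^ P.e' k, n ∈ P.part k j i := by
  have h1 : 2 ^ P.e' k * 2 ^ (P.e k - P.e' k) = 2 ^ P.e k := by
    rw [← pow_add, Nat.add_sub_cancel' he]
  have hL : 0 < 2 ^ (P.e k - P.e' k) := by positivity
  unfold Par.cell at hn
  rw [Finset.mem_Ico, add_mul, one_mul] at hn
  refine ⟨(n - (2 ^ k + j * 2 ^ P.e k)) / 2 ^ (P.e k - P.e' k), ?_, ?_⟩
  · rw [Nat.div_lt_iff_lt_mul hL, h1]; omega
  · unfold Par.part
    rw [mem_blk hL]
    exact ⟨hn.1, rfl⟩

theorem part_unique {k j i i' n : ℕ} (h : n ∈ P.part k j i) (h' : n ∈ P.part k j i') : i = i' := by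
  have hL : 0 < 2 ^ (P.e k - P.e' k) := by positivity
  unfold Par.part at h h'
  rw [mem_blk hL] at h h'
  rw [← h.2, ← h'.2]

/-- C0a -/
theorem cellFacts : CellFacts P where
  e_le := e_le P
  mem_cell := mem_cell P
  idx_lt := idx_lt P
  sum_block := sum_block P
  card_cell := card_cell P
  card_part := card_part P
  part_subset := part_subset P
  exists_part := exists_part P
  part_unique := part_unique P

end Pool.Agent.Helper51.QRH
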